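import Pool.Agent.Q240.Down.Gap

set_option autoImplicit false
open scoped Pointwise

namespace Pool.Agent.Results.MP_86f7a7_co.DownSets

/-- The polynomial Freiman-Ruzsa conjecture with generalized arithmetic progressions, for every
finite subset `A` of an abelian group (torsion-free or not) that is Freiman isomorphic of order 2
to a nonempty finite set `D ⊆ ℤ ^ d`, `d` arbitrary, that is closed under moving coordinates
towards `0`: translates of one progression of logarithmic rank, with at most `|A|` tuples of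
coefficients, cover `A`, and one of them contains a polynomial proportion of `A`. -/
theorem result {Z : Type*} [AddCommGroup Z] [DecidableEq Z] (d : ℕ)
    (D : Finset (Fin d → ℤ)) (hD : D.Nonempty)
    (hT : ∀ x ∈ D, ∀ y : Fin d → ℤ,
      (∀ i, (0 ≤ y i ∧ y i ≤ x i) ∨ (x i ≤ y i ∧ y i ≤ 0)) → y ∈ D)
    (A : Finset Z) (f : (Fin d → ℤ) → Z)
    (hf : IsAddFreimanIso 2 (D : Set (Fin d → ℤ)) (A : Set Z) f)
    (K : ℝ) (hK : ((A + A).card : ℝ) ≤ K * A.card) :
    ∃ (r : ℕ) (v : Fin r → Z) (N : Fin r → ℕ) (T : Finset Z),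
      (r : ℝ) ≤ 480 * Real.log K + 1 ∧ (∀ i, 1 ≤ N i) ∧ ∏ i, N i ≤ A.card ∧
      (T.card : ℝ) ≤ 48 * K ^ 2292 ∧
      (∀ a ∈ A, ∃ t ∈ T, ∃ n : Fin r → ℕ, (∀ i, n i < N i) ∧ a = t + ∑ i, n i • v i) ∧
      ∃ t : Z, (A.card : ℝ) ≤ 48 * K ^ 2292 * ((A : Set Z) ∩
        {x | ∃ n : Fin r → ℕ, (∀ i, n i < N i) ∧ x = t + ∑ i, n i • v i}).ncard := by
  obtain ⟨r, v, N, T, h1, h2, h3, h4, h5⟩ := Q240.Down.gap_freiman D hD hT A f hf K hK
  have hA : A.Nonempty := by
    obtain ⟨x, hx⟩ := hD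
    have h := (isAddFreimanIso_two.1 hf).1.mapsTo hx
    exact ⟨f x, by exact_mod_cast h⟩
  obtain ⟨t, ht⟩ := Q240.Down.gap_dense h4 hA h5
  exact ⟨r, v, N, T, h1, h2, h3, h4, h5, t, ht⟩

end Pool.Agent.Results.MP_86f7a7_co.DownSets
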