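import Mathlib
import Pool.Agent.Q167.MG.One
set_option autoImplicit false

/-!
# The polynomial Freiman-Ruzsa conjecture with progressions, for towers of monotone families

`D ⊆ ℤ^n × G`, `n` and the abelian group `G` arbitrary, is a monotone family (`IsMonotoneFamily`): the
fibre over `y` contains the fibre over `x` if `y` is coordinatewise between `0` and `x`.
`Model K A D φ g`: `|D + D| ≤ K |D|`, `|D| ≤ K |A|`, and at least `|A| / K` elements of `A` are in
`g + φ(D)` for a homomorphism `φ : ℤ^n × G → Γ` (not injective in general). `Meets ρ s δ A` is the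
conclusion of Q1: a progression `P` of rank at most `ρ` with `|P| ≤ s |A|` and `|A ∩ P| ≥ |A| / δ`.

(1) The conclusion of Q1 passes from the fibre over `0` to `A`, at the cost of powers of `K` and with
`4 + 6 log₂ K` added to the rank.
(2) Unconditionally: towers of monotone families of height `h` satisfy the conclusion of Q1.

Proof. By Plünnecke's inequality `D` is dense in `S × F`, where `S` is its projection to `ℤ^n` and `F`
the fibre over `0`, and both have small doubling. `S` is coordinatewise star-shaped; the starting
theorem on such sets gives a progression of rank `O(log K)` and of size at most `|S|` that contains a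
large part `S'` of `S`. Let `F'` be the part of `F` in its progression. The translates of `S' × F'` by
the elements of `(S - S) × (F - F)` that meet `D` cover it evenly, so that one of them contains a large
part of any dense subset of `D` on which `φ` is injective.
-/

universe u v

namespace Pool.Agent.Results.MP_86f7a7_co.MonotoneTowers

open Pool.Agent.Q167.MF Pool.Agent.Q167.MG
open scoped Pointwise

theorem result :
    (∀ (Γ : Type u) [AddCommGroup Γ] [DecidableEq Γ] (G : Type v) [AddCommGroup G] [DecidableEq G]
      (K ρ s δ : ℝ) (A : Finset Γ) (n : ℕ) (D : Finset ((Fin n → ℤ) × G))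
      (φ : ((Fin n → ℤ) × G) →+ Γ) (g : Γ),
        Model K A D φ g → Meets ρ s δ (fibre D) →
        Meets (ρ + (4 + 6 * Real.logb 2 K)) (s * K ^ 2) (2 ^ 39 * K ^ 64 * δ) A) ∧
    (∀ (Γ : Type u) [AddCommGroup Γ] [DecidableEq Γ] (K L : ℝ) (h : ℕ) (A : Finset Γ),
        Tower K L h Γ A →
        Meets (h * (4 + 6 * Real.logb 2 K)) (K ^ (2 * h)) ((2 ^ 39 * K ^ 64) ^ h * L) A) :=
  ⟨fun _ _ _ _ _ _ _ _ _ _ _ _ _ _ _ hM hF => main hM hF,
    fun Γ _ _ K L h A hT => tower K L h Γ A hT⟩

end Pool.Agent.Results.MP_86f7a7_co.MonotoneTowers
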