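import Pool.Agent.Q166.CS.Slow

/-!
# The polynomial Freiman-Ruzsa conjecture with progressions, torsion-free groups: sets with a companion of slow growth

Q1's conclusion, with constants depending on `k` and `C` only, for every finite set `A` of a torsion-free group with a
companion: a set `B` with `|B| ≤ K^C |A|`, `|A + B| ≤ K^C |B|` whose `n`-fold sumset has at most `K^C |B|` elements for
some `n ≥ (log K)^(1/k)`, `n ≥ 2` (for example `B = A`). The rank is `O(1 + log K / log n)`, the size at most `|A|`.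

The convex progressions of `MP_626a77_co.CompanionSets` (dimension `d = O(1 + log K / log n)`) are replaced by
progressions with the discrete John theorem of the starting files; this costs a factor `O(d^3)^d`, which is a power of
`K` here, because `log d = O(log n)` when `n ≥ (log K)^(1/k)`.
-/

set_option autoImplicit false

open scoped Pointwise

namespace Pool.Agent.Results.MP_86f7a7_co.SlowCompanion

open Pool.Agent.Q166.CS Pool.Agent.TH513.IS

/-- `A` has at least `K^(-E) |A|` elements in a progression `P` of rank at most `E (1 + log K / log n)`, the product of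
whose lengths is at most `|A|`. -/
def MeetsProgression {G : Type*} [AddCommGroup G] (E n : ℕ) (K : ℝ) (A : Finset G) : Prop :=
  ∃ (d : ℕ) (a : G) (v : Fin d → G) (N : Fin d → ℕ) (P : Set G),
    P = {x : G | ∃ k : Fin d → ℕ, (∀ i, k i < N i) ∧ x = a + ∑ i, k i • v i} ∧
    (d : ℝ) ≤ E * (1 + Real.log K / Real.log n) ∧ (∀ i, 1 ≤ N i) ∧ ∏ i, N i ≤ A.card ∧
    (A.card : ℝ) ≤ K ^ E * ((A : Set G) ∩ P).ncard

theorem sm_subset {G : Type*} [AddCommGroup G] [DecidableEq G] (B : Finset G) (n : ℕ) : sm B n ⊆ n • B := by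
  intro x hx
  rw [mem_sm] at hx
  obtain ⟨f, hf, rfl⟩ := hx
  rw [Finset.mem_nsmul]
  exact ⟨fun i => ⟨f i, hf i⟩, by rw [List.sum_ofFn]⟩

theorem core {G : Type*} [AddCommGroup G] [DecidableEq G] (htf : ∀ (n : ℕ) (x : G), n ≠ 0 → n • x = 0 → x = 0)
    (k C : ℕ) (K : ℝ) (hK : 2 ≤ K) (A B : Finset G) (hA : A.Nonempty) (hB : B.Nonempty) (n : ℕ)
    (hn : 2 ≤ n) (hkn : Real.log K ≤ (n : ℝ) ^ k) (h1 : (B.card : ℝ) ≤ K ^ C * A.card)
    (h2 : ((A + B).card : ℝ) ≤ K ^ C * B.card) (h3 : ((sm B n).card : ℝ) ≤ K ^ C * B.card) :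
    MeetsProgression (EG k C) n K A := by
  obtain ⟨r, a, v, N, Y, hr, hN, hprod, hYA, hY, hcard⟩ := slow_gap htf k C K hK A B hA hB n hn hkn h1 h2 h3
  refine ⟨r, a, v, N, _, rfl, hr, hN, hprod, hcard.trans ?_⟩
  have h4 : Y.card ≤ ((A : Set G) ∩ {x : G | ∃ k : Fin r → ℕ, (∀ i, k i < N i) ∧ x = a + ∑ i, k i • v i}).ncard := by
    rw [← Set.ncard_coe_finset]
    exact Set.ncard_le_ncard (fun x hx => ⟨hYA hx, hY x hx⟩) (A.finite_toSet.subset Set.inter_subset_left)
  have hK0 : (0 : ℝ) ≤ K ^ (EG k C) := by positivity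
  exact mul_le_mul_of_nonneg_left (by exact_mod_cast h4) hK0

universe u

/-- **Result.** -/
theorem result : ∀ k C l m : ℕ, ∃ E : ℕ, ∀ (G : Type u) [AddCommGroup G] [DecidableEq G],
    (∀ (n : ℕ) (x : G), n ≠ 0 → n • x = 0 → x = 0) →
    ∀ (K : ℝ) (A : Finset G) (n : ℕ), 2 ≤ K → A.Nonempty → 2 ≤ n → Real.log K ≤ (n : ℝ) ^ k →
    -- a companion of slow growth
    (∀ B : Finset G, B.Nonempty → (B.card : ℝ) ≤ K ^ C * A.card → ((A + B).card : ℝ) ≤ K ^ C * B.card →
      ((n • B).card : ℝ) ≤ K ^ C * B.card → MeetsProgression E n K A) ∧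
    -- many almost periods
    (((A + A).card : ℝ) ≤ K * A.card → ∀ g : G →₀ ℝ, g ≠ 0 → (g.support : Set G) ⊆ ((l • A - m • A : Finset G) : Set G) →
      ∀ T : Finset G, (A.card : ℝ) ≤ K ^ C * T.card →
      (∀ x ∈ T, ∑' z, |g (z + x) - g z| ≤ 1 / (n : ℝ) * ∑' z, |g z|) → MeetsProgression E n K A) := by
  intro k C l m
  refine ⟨EG k (C + 2 * (l + m) + 1), fun G _ _ htf K A n hK hA hn hkn => ⟨?_, ?_⟩⟩
  · intro B hB h1 h2 h3
    have hK1 : 1 ≤ K := by linarith
    have hpow : K ^ C ≤ K ^ (C + 2 * (l + m) + 1) := pow_le_pow_right₀ hK1 (by omega)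
    have h4 : ((sm B n).card : ℝ) ≤ (n • B).card := by
      exact_mod_cast Finset.card_le_card (sm_subset B n)
    exact core htf k (C + 2 * (l + m) + 1) K hK A B hA hB n hn hkn
      (h1.trans (mul_le_mul_of_nonneg_right hpow (Nat.cast_nonneg _)))
      (h2.trans (mul_le_mul_of_nonneg_right hpow (Nat.cast_nonneg _)))
      (h4.trans (h3.trans (mul_le_mul_of_nonneg_right hpow (Nat.cast_nonneg _))))
  · intro hAA g hg hS T hTA hT
    obtain ⟨h1, h2, h3⟩ := periods_comp hA (by linarith) hAA l m C g hg (by exact_mod_cast hS) n (by omega) T hTA hT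
    have hTne : T.Nonempty := by
      rw [Finset.nonempty_iff_ne_empty]
      rintro rfl
      have : (0 : ℝ) < A.card := by exact_mod_cast hA.card_pos
      simp at hTA
      rw [hTA] at hA
      exact Finset.not_nonempty_empty hA
    exact core htf k (C + 2 * (l + m) + 1) K hK A T hA hTne n hn hkn h1 h2 h3

end Pool.Agent.Results.MP_86f7a7_co.SlowCompanion
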